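import Mathlib
import Pool.Agent.Q83.Cone.Skew

set_option autoImplicit false
open scoped LinearAlgebra.Projectivization
open MvPolynomial

/-!
# Geproci sets of type `(a, b)` with `b > 2a² - 5a + 4` lie on `a` skew lines

Let `Z ⊂ ℙ^3` be a finite set of points (over `ℂ`) which is not contained in a plane and whose
general projection to a plane is a complete intersection of type `(a, b)`, `2 ≤ a`. If
`b > 2a² - 5a + 4`, then `Z` is contained in `a` pairwise disjoint lines, each of which contains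
exactly `b` points of `Z`. Hence the set `S(a)` of the problem is contained in the interval
`[a, 2a² - 5a + 4]` and is finite for every `a`.
-/

namespace Pool.Agent.Results.MP_7fd0c9_ag.SkewLines

/-- The homogeneous ideal of a set of points of projective space which is given by a set `S` of
vectors: the ideal of all polynomials which vanish on the cone over `S`. -/
noncomputable def idealOf {n : ℕ} (S : Set (Fin n → ℂ)) : Ideal (MvPolynomial (Fin n) ℂ) :=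
  vanishingIdeal ℂ {v | ∃ x ∈ S, ∃ t : ℂ, v = t • x}

/-- `Q` holds for a general point `P` of `ℙ^3`: it holds for all vectors `P` outside of the zero
set of some nonzero polynomial. -/
def ForGeneralPoint (Q : (Fin 4 → ℂ) → Prop) : Prop :=
  ∃ h : MvPolynomial (Fin 4) ℂ, h ≠ 0 ∧ ∀ P : Fin 4 → ℂ, eval P h ≠ 0 → Q P

/-- The projection of the point `z` from the point `P` to the plane `H = {x_3 = 0}`: the first
three coordinates of the vector `P_3 • z - z_3 • P`. -/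
def proj (P z : Fin 4 → ℂ) : Fin 3 → ℂ := fun i => P 3 * z i.castSucc - z 3 * P i.castSucc

/-- `Z` is `(a, b)`-geproci: the ideal of the projection of `Z` from a general point to the plane
`H` is generated by two forms of degrees `a` and `b`. -/
def IsGeproci (Z : Finset (ℙ ℂ (Fin 4 → ℂ))) (a b : ℕ) : Prop :=
  ForGeneralPoint fun P => ∃ F G : MvPolynomial (Fin 3) ℂ, F.IsHomogeneous a ∧
    G.IsHomogeneous b ∧ Ideal.span {F, G} = idealOf {y | ∃ z ∈ Z, y = proj P z.rep}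

/-- `Z` is contained in a plane. -/
def InPlane (Z : Finset (ℙ ℂ (Fin 4 → ℂ))) : Prop :=
  ∃ c : Fin 4 → ℂ, c ≠ 0 ∧ ∀ z ∈ Z, ∑ i, c i * z.rep i = 0

/-- `Z` is a grid: `Z = A ∩ B` for a union `A` of `m` pairwise disjoint lines and a union `B` of
`n` pairwise disjoint lines, `2 ≤ m ≤ n`, such that every line of `A` meets every line of `B` in
exactly one point. -/
def IsGrid (Z : Finset (ℙ ℂ (Fin 4 → ℂ))) : Prop :=
  ∃ m n : ℕ, 2 ≤ m ∧ m ≤ n ∧
    ∃ (A : Fin m → Submodule ℂ (Fin 4 → ℂ)) (B : Fin n → Submodule ℂ (Fin 4 → ℂ)),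
      (∀ i, Module.finrank ℂ (A i) = 2) ∧ (∀ j, Module.finrank ℂ (B j) = 2) ∧
      (∀ i i', i ≠ i' → A i ⊓ A i' = ⊥) ∧ (∀ j j', j ≠ j' → B j ⊓ B j' = ⊥) ∧
      (∀ i j, Module.finrank ℂ ↥(A i ⊓ B j) = 1) ∧
      ∀ z : ℙ ℂ (Fin 4 → ℂ), z ∈ Z ↔ (∃ i, z.submodule ≤ A i) ∧ ∃ j, z.submodule ≤ B j

/-- `L` is a family of `a` pairwise disjoint lines of `ℙ^3`. -/
def AreSkewLines {a : ℕ} (L : Fin a → Submodule ℂ (Fin 4 → ℂ)) : Prop :=
  (∀ i, Module.finrank ℂ (L i) = 2) ∧ ∀ i j, i ≠ j → L i ⊓ L j = ⊥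

/-- `Z` is contained in a union of `a` pairwise disjoint lines. -/
def InSkewLines (Z : Finset (ℙ ℂ (Fin 4 → ℂ))) (a : ℕ) : Prop :=
  ∃ L : Fin a → Submodule ℂ (Fin 4 → ℂ), AreSkewLines L ∧ ∀ z ∈ Z, ∃ i, z.submodule ≤ L i

/-- The set `S(a)`: all `b ≥ a` for which there is a nontrivial `(a, b)`-geproci set which is not
contained in `a` skew lines. -/
def S (a : ℕ) : Set ℕ :=
  {b | a ≤ b ∧ ∃ Z : Finset (ℙ ℂ (Fin 4 → ℂ)), IsGeproci Z a b ∧ ¬ InPlane Z ∧ ¬ IsGrid Z ∧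
    ¬ InSkewLines Z a}

open Pool.Agent.Helper947.Geo Pool.Agent.Y206.G Pool.Agent.Y206.Q Pool.Agent.Q83.Cone

theorem mem_idealOf {n : ℕ} {S : Set (Fin n → ℂ)} {f : MvPolynomial (Fin n) ℂ} :
    f ∈ idealOf S ↔ ∀ x ∈ S, ∀ t : ℂ, eval (t • x) f = 0 := by
  rw [idealOf, mem_vanishingIdeal_iff]
  constructor
  · intro h x hx t
    have := h (t • x) ⟨x, hx, t, rfl⟩
    rwa [aeval_eq_eval] at this
  · rintro h _ ⟨x, hx, t, rfl⟩
    rw [aeval_eq_eval]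
    exact h x hx t

theorem gep_of {Z : Finset (ℙ ℂ (Fin 4 → ℂ))} {a b : ℕ} (h : IsGeproci Z a b) :
    Gep (fun z : Z => (z : ℙ ℂ (Fin 4 → ℂ)).rep) a b := by
  obtain ⟨φ, hφ, hP⟩ := h
  refine ⟨φ, hφ, fun P hPφ => ?_⟩
  obtain ⟨F, G, hF, hG, hI⟩ := hP P hPφ
  refine ⟨F, G, hF, hG, ?_⟩
  intro f
  rw [hI, mem_idealOf]
  constructor
  · intro h k t
    exact h _ ⟨k.1, k.2, rfl⟩ t
  · rintro h _ ⟨z, hz, rfl⟩ t
    exact h ⟨z, hz⟩ t

theorem lines (Z : Finset (ℙ ℂ (Fin 4 → ℂ))) (a b : ℕ) (ha : 2 ≤ a)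
    (hb : 2 * a ^ 2 + 4 < b + 5 * a) (hZ : IsGeproci Z a b) (hplane : ¬ InPlane Z) :
    ∃ L : Fin a → Submodule ℂ (Fin 4 → ℂ), AreSkewLines L ∧ (∀ z ∈ Z, ∃ i, z.submodule ≤ L i) ∧
      ∀ i, Set.ncard {z | z ∈ Z ∧ z.submodule ≤ L i} = b := by
  classical
  have hspan : ∀ c : Fin 4 → ℂ, (∀ z ∈ Z, c ⬝ᵥ z.rep = 0) → c = 0 := by
    intro c hc
    by_contra hne
    exact hplane ⟨c, hne, hc⟩
  obtain ⟨I, hIc, hI2, hIs, hIb, hcov⟩ := main (K := ℙ ℂ (Fin 4 → ℂ)) (z := fun z => z.rep)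
    (S := Z) (gep_of hZ) (fun k l hkl => c4_pair _ _ hkl) (fun k => k.rep_nonzero) hspan ha hb
  let E := I.equivFinOfCardEq hIc
  refine ⟨fun i => (E.symm i).1, ⟨fun i => hI2 _ (E.symm i).2, ?_⟩, ?_, ?_⟩
  · intro i j hij
    exact hIs _ (E.symm i).2 _ (E.symm j).2 fun h => hij (E.symm.injective (Subtype.ext h))
  · intro z hz
    obtain ⟨L, hL, hzL⟩ := hcov z hz
    refine ⟨E ⟨L, hL⟩, ?_⟩
    simp only [Equiv.symm_apply_apply]
    exact (sub_le_iff z L).mpr hzL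
  · intro i
    rw [← hIb _ (E.symm i).2, ← Set.ncard_coe_finset]
    congr 1
    ext z
    simp only [Set.mem_ofPred_eq, Finset.coe_filter, sub_le_iff]

/-- **Main theorem.** Every nondegenerate `(a, b)`-geproci set with `a ≥ 2` and
`b > 2a² - 5a + 4` is contained in `a` pairwise disjoint lines, each of which contains exactly `b`
of its points. Hence every `b ∈ S(a)`, `a ≥ 2`, satisfies `b ≤ 2a² - 5a + 4`, and `S(a)` is
finite. -/
theorem result :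
    (∀ (Z : Finset (ℙ ℂ (Fin 4 → ℂ))) (a b : ℕ), 2 ≤ a → 2 * a ^ 2 + 4 < b + 5 * a →
      IsGeproci Z a b → ¬ InPlane Z → ∃ L : Fin a → Submodule ℂ (Fin 4 → ℂ), AreSkewLines L ∧
        (∀ z ∈ Z, ∃ i, z.submodule ≤ L i) ∧
        ∀ i, Set.ncard {z | z ∈ Z ∧ z.submodule ≤ L i} = b) ∧
    ∀ a : ℕ, 2 ≤ a → (∀ b ∈ S a, a ≤ b ∧ b + 5 * a ≤ 2 * a ^ 2 + 4) ∧ (S a).Finite := by
  refine ⟨fun Z a b ha hb hZ hp => lines Z a b ha hb hZ hp, fun a ha => ?_⟩
  have key : ∀ b ∈ S a, a ≤ b ∧ b + 5 * a ≤ 2 * a ^ 2 + 4 := by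
    rintro b ⟨hab, Z, hZ, hp, -, hs⟩
    refine ⟨hab, ?_⟩
    by_contra hcon
    obtain ⟨L, hL, hLZ, -⟩ := lines Z a b ha (by omega) hZ hp
    exact hs ⟨L, hL, hLZ⟩
  refine ⟨key, (Set.finite_Iic (2 * a ^ 2 + 4)).subset fun b hb => ?_⟩
  have := (key b hb).2
  exact Set.mem_Iic.mpr (by omega)

end Pool.Agent.Results.MP_7fd0c9_ag.SkewLines
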